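import Mathlib
import Pool.Agent.H.MP_924435_co.A

namespace Pool.Agent.Results.MP_924435_co.Finite

open Set

/-- The first `K ^ 2` terms of `p` form a `K`-good sequence. -/
def Good (K : ℕ) (p : ℕ → ℝ × ℝ) : Prop :=
  (∀ n < K ^ 2, (p n).1 ∈ Ico (0 : ℝ) 1 ∧ (p n).2 ∈ Ico (0 : ℝ) 1) ∧
  ∀ k : ℕ, 1 ≤ k → k ≤ K → ∀ i < k, ∀ j < k, ∃! n : ℕ, n < k ^ 2 ∧
    (p n).1 ∈ Ico ((i : ℝ) / k) ((i + 1 : ℝ) / k) ∧ (p n).2 ∈ Ico ((j : ℝ) / k) ((j + 1 : ℝ) / k)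

set_option maxRecDepth 100000 in
def W : List (ℕ × ℕ × ℕ × ℕ) := [
  (21,22,7,15),(5,17,3,19),(1,3,7,10),(18,19,17,19),(3,19,21,22),(4,15,10,21),(4,7,0,1),
  (8,13,10,19),(21,22,2,15),(1,8,10,19),(3,19,3,14),(3,14,4,13),(7,18,21,22),(11,19,7,19),
  (14,19,17,21),(15,17,7,11),(0,1,13,18),(2,17,1,17),(3,7,5,11),(8,15,19,21),(7,12,3,4),
  (8,11,1,21),(17,22,9,14),(15,19,1,5),(21,22,4,15),(0,1,7,17),(4,19,5,6),(5,19,13,22),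
  (3,10,9,11),(5,13,5,9),(2,5,4,13),(4,9,0,1),(6,11,5,22),(3,4,11,12),(14,17,7,17),(13,14,15,19),
  (0,1,13,21),(1,19,3,19),(1,12,10,11),(2,9,0,1),(5,14,1,15),(7,16,5,6),(9,19,11,16),
  (10,19,5,12),(11,19,9,14),(9,14,14,15),(7,10,1,7),(5,7,10,19),(13,15,7,22),(0,1,4,13),
  (1,21,19,22),(4,21,2,5),(3,13,13,19),(5,18,10,11),(4,13,2,7),(8,17,3,17),(13,20,5,17),
  (13,18,14,19),(11,15,7,17),(17,20,17,20),(19,22,1,18),(13,15,6,11),(21,22,1,15),(21,22,9,16),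
  (1,16,7,13),(1,10,1,10),(1,6,13,17),(3,17,8,13),(3,10,2,5),(7,19,3,22),(8,21,8,21),(5,11,1,2),
  (8,15,17,21),(6,11,11,19),(13,22,1,8),(11,18,7,8),(16,21,4,13),(19,22,17,22),(13,15,14,15),
  (10,11,9,13),(14,15,1,3),(0,1,0,1),(1,20,5,21),(1,9,7,19),(1,9,14,17),(3,13,4,17),(4,15,8,11),
  (7,18,13,20),(9,20,13,17),(6,13,21,22),(10,21,1,4),(5,8,1,3),(7,11,2,11),(7,11,13,21),
  (9,14,1,18),(11,17,13,18),(15,22,7,16),(7,8,2,17),(7,8,4,17),(12,13,12,13),(0,1,11,14),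
  (1,8,11,16),(2,13,3,10),(3,14,3,20),(3,13,13,14),(5,16,6,11),(6,19,3,14),(7,20,10,21),
  (5,14,15,19),(7,18,3,13),(10,21,5,14),(10,21,3,5),(9,17,1,12),(11,19,16,17),(15,22,13,15),
  (7,9,7,15),(4,5,5,9),(17,21,13,15),(13,16,3,22),(17,20,10,21),(10,11,7,18),(0,1,8,17),
  (0,1,21,22),(1,12,3,7),(1,11,13,22),(2,11,7,15),(4,21,9,16),(2,7,0,1),(6,19,21,22),
  (7,20,17,19),(3,7,1,12),(11,21,14,19),(9,16,2,7),(11,18,5,11),(7,10,5,18),(12,17,10,17),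
  (5,7,5,22),(8,11,21,22),(11,14,7,9),(13,16,7,10),(14,17,1,15),(16,17,12,19),(21,22,4,19),
  (21,22,7,10),(0,1,1,12),(1,12,2,7),(1,10,2,9),(2,19,21,22),(2,17,14,19),(1,6,11,12),
  (4,17,5,14),(3,10,1,11),(7,22,7,11),(7,19,3,7),(2,5,8,9),(8,19,2,13),(11,21,0,1),(10,19,8,15),
  (5,9,10,21),(3,5,9,11),(11,17,15,19),(13,20,1,9),(13,20,5,9),(9,13,13,19),(13,16,4,13),
  (9,11,4,17),(5,6,21,22),(11,12,2,11),(21,22,2,5),(1,15,11,17),(2,19,1,6),(1,6,0,1),(3,17,3,17),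
  (2,11,1,12),(3,16,12,17),(3,14,1,2),(2,9,11,14),(4,17,1,12),(2,7,17,22),(7,17,10,17),
  (5,12,5,7),(3,7,7,20),(7,15,15,17),(11,21,20,21),(11,20,13,19),(5,9,1,6),(13,21,5,21),
  (7,10,4,11),(16,21,3,20),(16,21,4,7),(17,22,1,12),(5,6,3,5),(10,11,4,9),(12,13,11,13),
  (21,22,3,4),(21,22,21,22),(0,1,4,11),(0,1,10,11),(1,7,19,22),(1,6,4,11),(3,14,21,22),
  (5,21,7,16),(1,4,11,17),(6,19,1,3),(1,3,0,1),(1,3,17,20),(5,14,3,11),(7,16,3,14),(4,9,13,20),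
  (10,21,10,21),(1,2,3,10),(1,2,17,20),(9,16,3,7),(13,19,12,19),(12,17,1,12),(8,11,19,22),
  (3,4,3,8),(16,21,9,13),(11,14,0,1),(11,14,21,22),(4,5,5,14),(8,9,0,1),(19,21,10,19),
  (21,22,0,1),(21,22,9,11),(0,1,5,9),(0,1,2,3),(1,13,15,19),(2,21,9,19),(2,15,8,19),(2,15,9,14),
  (1,4,1,5),(1,4,6,11),(4,15,6,19),(4,15,21,22),(6,17,13,21),(7,18,0,1),(7,18,14,17),(2,5,16,21),
  (7,16,9,22),(9,19,2,17),(7,13,7,20),(10,17,1,12),(13,22,7,12),(13,22,12,17),(9,14,9,22),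
  (15,22,21,22),(13,19,4,21),(9,13,10,21),(7,10,10,11),(14,17,13,20),(8,9,5,18),(14,15,11,19),
  (14,15,21,22),(19,20,1,2),(21,22,7,20),(1,21,1,5),(1,17,14,19),(1,15,1,3),(1,12,0,1),
  (2,17,1,4),(2,15,7,12),(2,13,2,15),(5,21,19,22),(4,15,2,15),(5,18,1,4),(7,22,9,20),(1,3,3,4),
  (5,13,1,2),(7,16,8,15),(4,9,5,18),(10,21,1,12),(10,21,4,5),(10,21,11,12),(9,16,13,15),
  (5,8,21,22),(9,14,2,3),(15,22,0,1),(3,4,1,4),(9,11,11,21),(9,11,3,4),(9,11,15,16),(6,7,5,7),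
  (19,22,3,17),(7,8,3,8),(15,16,1,11),(15,16,3,22),(15,16,14,19),(21,22,7,8),(0,1,1,2),
  (1,16,9,13),(1,13,1,8),(2,21,15,17),(2,17,11,12),(2,15,0,1),(3,22,10,21),(1,6,4,15),(1,6,9,11),
  (5,17,15,17),(3,10,2,3),(7,22,4,7),(7,19,17,18),(3,8,3,16),(3,8,7,22),(10,21,9,22),(1,2,3,16),
  (1,2,8,17),(6,11,2,15),(6,11,12,19),(4,7,21,22),(10,17,1,2),(3,5,3,11),(5,8,0,1),(15,22,17,22),
  (9,13,14,17),(11,15,7,15),(14,19,3,16),(17,22,1,2),(5,6,0,1),(19,22,7,16),(15,17,14,17),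
  (19,21,2,9),(17,18,5,17),(21,22,13,20),(0,1,2,15),(0,1,9,11),(1,17,21,22),(1,12,5,13),
  (3,22,7,22),(3,17,1,2),(3,17,13,20),(4,21,15,17),(1,5,2,15),(4,19,13,22),(1,4,3,8),(3,11,8,19),
  (7,22,3,22),(1,3,4,21),(1,3,7,18),(5,12,1,10),(7,16,11,18),(4,9,19,21),(8,17,11,15),
  (10,21,5,9),(1,2,2,3),(6,11,11,14),(13,22,1,5),(13,20,4,17),(2,3,11,21),(15,22,7,22),
  (14,19,7,22),(14,19,11,18),(11,14,11,13),(13,16,9,20),(14,17,4,5),(6,7,10,17),(8,9,21,22),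
  (9,10,10,21),(17,18,0,1),(21,22,3,17),(21,22,3,5),(0,1,3,17),(0,1,5,19),(1,12,1,12),
  (1,12,16,19),(1,10,17,22),(2,9,4,15),(2,9,9,20),(2,9,11,17),(2,9,14,19),(4,15,11,13),
  (5,18,1,12),(5,18,9,13),(7,22,12,13),(7,18,12,17),(8,19,19,20),(9,19,6,19),(10,21,0,1),
  (10,21,2,9),(7,13,4,15),(10,17,7,22),(13,22,4,5),(8,13,1,7),(8,13,7,18),(12,19,13,22),
  (13,20,9,10),(2,3,5,13),(2,3,14,19),(9,13,2,21),(11,15,10,13),(14,19,13,20),(10,13,6,7),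
  (11,14,2,5),(15,19,1,8),(15,19,8,11),(14,17,3,16),(16,19,3,11),(17,19,9,13),(21,22,6,19),
  (21,22,17,18),(0,1,4,19),(0,1,15,17),(1,22,10,17),(1,20,10,21),(2,13,5,9),(3,17,8,19),
  (3,17,13,18),(5,21,4,5),(1,4,1,6),(4,15,0,1),(2,7,14,19),(6,19,10,21),(7,22,4,15),(1,3,7,20),
  (1,3,21,22),(5,14,7,13),(7,19,3,5),(8,21,1,20),(2,5,5,11),(8,19,4,15),(8,19,3,8),(10,21,6,7),
  (1,2,1,8),(1,2,12,19),(1,2,13,18),(1,2,21,22),(13,21,3,7),(9,14,9,11),(11,17,10,21),(5,7,2,3),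
  (8,11,1,2),(3,4,0,1),(3,4,2,21),(17,22,5,21),(17,22,11,12),(9,11,1,3),(6,7,7,18),(19,22,8,9),
  (10,11,4,15),(21,22,1,2),(21,22,15,19),(0,1,5,14),(0,1,14,19),(1,13,3,5),(1,11,7,20),
  (2,19,2,7),(1,7,1,13),(1,6,7,9),(4,21,5,14),(2,9,4,19),(2,9,18,19),(5,19,1,2),(3,10,8,15),
  (6,19,3,5),(7,22,1,10),(4,11,1,10),(4,11,4,5),(3,7,17,22),(9,20,21,22),(7,15,11,17),
  (10,21,8,21),(1,2,3,17),(1,2,3,8),(1,2,5,9),(5,9,2,9),(9,16,17,20),(13,22,2,3),(12,19,1,18),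
  (12,19,14,19),(12,19,14,15),(11,17,3,20),(11,17,21,22),(2,3,0,1),(2,3,7,20),(7,9,5,8),
  (17,20,1,11),(6,7,3,17),(6,7,7,8),(13,15,13,17),(8,9,12,19),(10,11,11,17),(11,12,5,11),
  (15,16,1,14),(21,22,3,7)]

def w (n : ℕ) : ℕ × ℕ × ℕ × ℕ := W.getD n (0, 1, 0, 1)

def c (k n : ℕ) : ℕ := k * (w n).1 / (w n).2.1 * k + k * (w n).2.2.1 / (w n).2.2.2

lemma c1 : ∀ k ∈ List.range (22 + 1), ((List.range (k ^ 2)).map (c k)).Perm (List.range (k ^ 2)) := by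
  decide +kernel

lemma c2 : ∀ z ∈ W, z.1 < z.2.1 ∧ z.2.2.1 < z.2.2.2 := by decide +kernel

lemma c3 (n : ℕ) : (w n).1 < (w n).2.1 ∧ (w n).2.2.1 < (w n).2.2.2 := by
  unfold w
  by_cases h : n < W.length
  · rw [List.getD_eq_getElem _ _ h]
    exact c2 _ (List.getElem_mem h)
  · rw [List.getD_eq_default _ _ (not_lt.1 h)]
    decide

lemma fl {k : ℕ} (hk : 1 ≤ k) (i : ℕ) (x : ℝ) :
    x ∈ Ico ((i : ℝ) / k) ((i + 1 : ℝ) / k) ↔ ⌊k * x⌋ = i := by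
  have : (0 : ℝ) < k := by exact_mod_cast hk
  rw [Int.floor_eq_iff, mem_Ico, div_le_iff₀ this, lt_div_iff₀ this, mul_comm x]
  simp

lemma fq (k a b : ℕ) : ⌊(k : ℝ) * ((a : ℝ) / b)⌋ = (k * a / b : ℕ) := by
  rw [← mul_div_assoc, ← Nat.cast_mul, Int.floor_div_natCast, Int.floor_natCast]
  simp

lemma cell {k : ℕ} (hk : 1 ≤ k) {x : ℝ} (h0 : 0 ≤ x) (h1 : x < 1) :
    ∃ i < k, ⌊k * x⌋ = (i : ℕ) := by
  have : (0 : ℝ) < k := by exact_mod_cast hk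
  have a : 0 ≤ ⌊k * x⌋ := Int.floor_nonneg.2 (by positivity)
  have b : ⌊k * x⌋ < k := Int.floor_lt.2 (by push_cast; nlinarith)
  exact ⟨⌊k * x⌋.toNat, by omega, by omega⟩

lemma up (K : ℕ) (hK : 939 ≤ K) (p : ℕ → ℝ × ℝ) : ¬ Good K p := by
  rintro ⟨h1, h2⟩
  refine Pool.Agent.H.MP_924435_co.key K hK (fun n => (p n).1) (fun n => (p n).2) ?_ ?_
  · intro k k1 k2 a b a0 a1 b0 b1
    obtain ⟨i, hi, ei⟩ := cell k1 a0 a1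
    obtain ⟨j, hj, ej⟩ := cell k1 b0 b1
    obtain ⟨n, ⟨n1, n2, n3⟩, -⟩ := h2 k k1 k2 i hi j hj
    rw [fl k1] at n2 n3
    exact ⟨n, n1, n2.trans ei.symm, n3.trans ej.symm⟩
  · intro k k1 k2 n hn m hm e1 e2
    have hm' := h1 m (hm.trans_le (Nat.pow_le_pow_left k2 2))
    obtain ⟨i, hi, ei⟩ := cell k1 hm'.1.1 hm'.1.2
    obtain ⟨j, hj, ej⟩ := cell k1 hm'.2.1 hm'.2.2
    exact (h2 k k1 k2 i hi j hj).unique ⟨hn, (fl k1 _ _).2 (e1.trans ei), (fl k1 _ _).2 (e2.trans ej)⟩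
      ⟨hm, (fl k1 _ _).2 ei, (fl k1 _ _).2 ej⟩

theorem result : (∃ p, Good 22 p) ∧ (∀ K, 939 ≤ K → ¬ ∃ p, Good K p) ∧
    ¬ ∃ p, ∀ K, 1 ≤ K → Good K p := by
  refine ⟨⟨fun n => (((w n).1 : ℝ) / (w n).2.1, ((w n).2.2.1 : ℝ) / (w n).2.2.2), ?_, ?_⟩,
    fun K hK ⟨p, hp⟩ => up K hK p hp, fun ⟨p, hp⟩ => up 939 le_rfl p (hp _ (by norm_num))⟩
  · intro n _
    obtain ⟨a, b⟩ := c3 n
    have a' : ((w n).1 : ℝ) < (w n).2.1 := by exact_mod_cast a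
    have b' : ((w n).2.2.1 : ℝ) < (w n).2.2.2 := by exact_mod_cast b
    exact ⟨⟨by positivity, (div_lt_one ((Nat.cast_nonneg _).trans_lt a')).2 a'⟩,
      by positivity, (div_lt_one ((Nat.cast_nonneg _).trans_lt b')).2 b'⟩
  · intro k k1 k2 i hi j hj
    have hp := c1 k (List.mem_range.2 (by omega))
    have hc : ∀ n, c k n = i * k + j ↔
        k * (w n).1 / (w n).2.1 = i ∧ k * (w n).2.2.1 / (w n).2.2.2 = j := by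
      intro n
      have b : k * (w n).2.2.1 / (w n).2.2.2 < k :=
        Nat.div_lt_of_lt_mul (by have := (c3 n).2; nlinarith)
      unfold c
      refine ⟨fun h => ?_, fun h => by rw [h.1, h.2]⟩
      have h1 := congrArg (· % k) h
      simp only [Nat.mul_add_mod_self_right, Nat.mod_eq_of_lt b, Nat.mod_eq_of_lt hj] at h1
      rw [h1] at h
      exact ⟨Nat.eq_of_mul_eq_mul_right k1 (by omega), h1⟩
    simp only [fl k1, fq, Nat.cast_inj, ← hc]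
    obtain ⟨n, n1, n2⟩ := List.mem_map.1 (hp.mem_iff.2
      (List.mem_range.2 (show i * k + j < k ^ 2 by nlinarith)))
    refine ⟨n, ⟨List.mem_range.1 n1, n2⟩, fun m hm => ?_⟩
    exact List.inj_on_of_nodup_map (hp.nodup_iff.2 List.nodup_range) (List.mem_range.2 hm.1) n1
      (hm.2.trans n2.symm)

end Pool.Agent.Results.MP_924435_co.Finite
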